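import Pool.Agent.W932.RO.Stm

/-!
# RO-POLY: the language is in the small class
-/

set_option autoImplicit false

namespace Pool.Agent.W352.RO.POLY

open Pool.Agent.NPC H568R2 Pool.Agent.H622R2 Pool.Agent.W932.RO

theorem polyNat_of {f : List Bool → ℕ} (h : UPoly f) : PolyNat f := by
  have h0 : Poly (fun a => List.replicate (f a) ()) := h
  exact polyTime_of_poly_list
    ((NPC.Poly.map (F := fun _ _ => true) h0 (NPC.Poly.const true)).congr fun a => by simp)

theorem poly_rst (i : ℕ) : Poly (rst i) := by
  induction i with
  | zero => exact Poly.id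
  | succ i ih =>
    have h2 : Poly (fun z : List Bool => (unpair z).2) := Poly.snd poly_unpair
    refine (h2.comp ih).congr fun a => ?_
    unfold rst
    rw [Function.iterate_succ_apply']

theorem upoly_num (i : ℕ) : UPoly (num i) := by
  have h1 : Poly (fun z : List Bool => (unpair z).1) := Poly.fst poly_unpair
  exact UPoly.length (h1.comp (poly_rst i))

theorem poly_lg : Poly lg := by
  have h0 : Poly (fun x : List Bool => x.length) := Poly.length Poly.id
  exact (Poly.length (Poly.natBits h0)).congr fun a => (Nat.size_eq_bits_len _)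

theorem upoly_lg : UPoly lg :=
  UPoly.of_le poly_lg (UPoly.length Poly.id) (fun x => Poly.size_le_self _)

theorem upoly_kap : UPoly kap := upoly_num 0

theorem upoly_wl : UPoly wl :=
  UPoly.of_le (Poly.min (upoly_num 1).toPoly poly_lg) upoly_lg (fun x => min_le_right _ _)

theorem upoly_bl (i : ℕ) : UPoly (bl i) := by
  cases i with
  | zero =>
    exact UPoly.of_le (Poly.min (upoly_num 2).toPoly (UPoly.mul upoly_kap upoly_lg).toPoly)
      (UPoly.mul upoly_kap upoly_lg) (fun x => min_le_right _ _)
  | succ i =>
    exact UPoly.of_le (Poly.min (upoly_num (i + 3)).toPoly poly_lg) upoly_lg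
      (fun x => min_le_right _ _)

theorem main : StmPoly := by
  refine ⟨polyNat_of upoly_kap, fun t A => ⟨bl, wl, par t, fun i => polyNat_of (upoly_bl i),
    polyNat_of upoly_wl, fun x => min_le_right _ _, fun i x => min_le_right _ _,
    fun x => min_le_right _ _, fun x => Iff.rfl⟩⟩

end Pool.Agent.W352.RO.POLY
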